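import Pool.Agent.Work.MP_768e99_starfree.Final

set_option autoImplicit false

namespace Pool.Agent.Results.MP_768e99_co.StarFree

open Pool.Agent.Work.MP_768e99_co Pool.Agent.Work.MP_768e99_starfree

/-- Let `G` be a finite graph without induced `K_{1,t}` (`t ≥ 2`) and without `K_{r,s}` minor,
`r ≥ 3`, `0 ≤ d ≤ s - 1`. If `G` is claw-free (`t = 3`) and `d ≥ 2`, or if
`(t-1) max(r,s) + (2t-3) (min(r,s) - 2) < (r+s-1-d) (d+1)`, then `G` is
`(r + s - 1 - d, d)*`-colourable. -/
theorem result {V : Type*} [Finite V] (G : SimpleGraph V) (t r s d : ℕ) (ht : 2 ≤ t) (hr : 3 ≤ r)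
    (hd : d + 1 ≤ s) (hfree : IsEmpty (completeBipartiteGraph (Fin 1) (Fin t) ↪g G))
    (hm : ¬ HasBicliqueMinor G r s)
    (h : (t = 3 ∧ 2 ≤ d) ∨
      (t - 1) * max r s + (2 * t - 3) * (min r s - 2) < (r + s - 1 - d) * (d + 1)) :
    DefColorable G (r + s - 1 - d) d := by
  rcases h with ⟨rfl, h2⟩ | h
  · exact claw_free hr h2 hd hfree hm
  · rcases Nat.lt_or_ge s 2 with hs | hs
    · exfalso
      have hs1 : s = 1 := by omega
      have hd0 : d = 0 := by omega
      subst hs1; subst hd0
      have e1 : max r 1 = r := max_eq_left (by omega)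
      have e2 : min r 1 = 1 := min_eq_right (by omega)
      have e3 : r + 1 - 1 - 0 = r := by omega
      rw [e1, e2, e3] at h
      have : 1 * r ≤ (t - 1) * r := Nat.mul_le_mul_right r (by omega)
      simp at h
      omega
    · exact main ht (by omega) hs hfree hm h

end Pool.Agent.Results.MP_768e99_co.StarFree
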